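import Pool.Agent.P.MP_99f05c_an.Asym

/-! Asymptotics of the extremal value `F(c)` as `c → 1`: with `ε = 1 - c²`,
`1 / F(c)² = 1 / (e ε) + 1 / (2 e) + Θ(1 / log (1 / ε))`. -/

namespace Pool.Agent.Results.MP_99f05c_an.Asymptotics

open Pool.Agent.P.MP_99f05c_an

theorem result : ∃ a b c₀ : ℝ, 0 < a ∧ 0 < b ∧ c₀ < 1 ∧ ∀ c : ℝ, c₀ < c → c < 1 →
    ∃ F : ℝ, 0 < F ∧ Fval c = ENNReal.ofReal F ∧
      a / Real.log (1 / (1 - c ^ 2))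
        ≤ 1 / F ^ 2 - 1 / (Real.exp 1 * (1 - c ^ 2)) - 1 / (2 * Real.exp 1) ∧
      1 / F ^ 2 - 1 / (Real.exp 1 * (1 - c ^ 2)) - 1 / (2 * Real.exp 1)
        ≤ b / Real.log (1 / (1 - c ^ 2)) :=
  Asym.main

end Pool.Agent.Results.MP_99f05c_an.Asymptotics
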