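import Pool.Agent.P.MP_99f05c_an.Main

/-! Extremal pairs for `F(c)` are not unique up to the obvious symmetries: there are
`c ∈ (κ, 1)`, arbitrarily close to `1`, with two inequivalent extremal pairs. -/

namespace Pool.Agent.Results.MP_99f05c_an.NonUnique

open Pool.Agent.P.MP_99f05c_an

theorem result (c₁ : ℝ) (hc₁ : c₁ < 1) : ∃ c : ℝ, c₁ < c ∧ kappa < c ∧ c < 1 ∧
    ∃ f₁ g₁ f₂ g₂ : ℂ → ℂ, IsExtremal c f₁ g₁ ∧ IsExtremal c f₂ g₂ ∧
      ¬ PairEquiv f₁ g₁ f₂ g₂ :=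
  nonunique c₁ hc₁

end Pool.Agent.Results.MP_99f05c_an.NonUnique
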